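import Pool.Agent.H6.Expan2

namespace Pool.Agent.Results.MP_e3cf1a_co.Quadratic

open Finset

open Classical in
/-- The edge `{u, v, z_{uv}}` of the expansion `G⁺`, whose vertex set is `V ⊕ E(G)`. -/
noncomputable def triple {V : Type} (G : SimpleGraph V) {u v : V} (h : G.Adj u v) :
    Finset (V ⊕ G.edgeSet) :=
  {Sum.inl u, Sum.inl v, Sum.inr ⟨s(u, v), h⟩}

open Classical in
/-- `X` meets every edge of `G⁺` in exactly one vertex. -/
def IsCrosscut {V : Type} (G : SimpleGraph V) (X : Finset (V ⊕ G.edgeSet)) : Prop :=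
  ∀ (u v : V) (h : G.Adj u v), (triple G h ∩ X).card = 1

/-- The crosscut number `σ(G⁺)`. -/
noncomputable def sigma {V : Type} (G : SimpleGraph V) : ℕ :=
  sInf {k | ∃ X, IsCrosscut G X ∧ X.card = k}

/-- `H` contains a copy of `G⁺`. -/
def HasCopy {V : Type} (G : SimpleGraph V) {n : ℕ} (H : Finset (Finset (Fin n))) : Prop :=
  ∃ F : V ⊕ G.edgeSet ↪ Fin n, ∀ (u v : V) (h : G.Adj u v), (triple G h).map F ∈ H

/-- The Turan number `ex₃(n, G⁺)`. -/
noncomputable def ex3 {V : Type} (G : SimpleGraph V) (n : ℕ) : ℕ :=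
  sSup {m | ∃ H : Finset (Finset (Fin n)), (∀ e ∈ H, e.card = 3) ∧ ¬ HasCopy G H ∧ H.card = m}

theorem result (V : Type) [Fintype V] (G : SimpleGraph V) (hG : sigma G = 3) :
    (fun n : ℕ => (ex3 G n : ℝ)) =Θ[Filter.atTop] fun n : ℕ => (n : ℝ) ^ 2 := by
  classical
  have hbdd : ∀ n, BddAbove {m | ∃ H : Finset (Finset (Fin n)),
      (∀ e ∈ H, e.card = 3) ∧ ¬ HasCopy G H ∧ H.card = m} :=
    fun n => ⟨_, by rintro c ⟨H, -, -, rfl⟩; exact card_le_univ H⟩
  constructor
  · obtain ⟨X, hX, hc⟩ : ∃ X, IsCrosscut G X ∧ X.card = sigma G :=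
      Nat.sInf_mem (s := {k | ∃ X, IsCrosscut G X ∧ X.card = k})
        (Nat.nonempty_of_pos_sInf (by rw [sigma] at hG; omega))
    obtain ⟨C, hC⟩ := Pool.Agent.H6.Expan.bound G X.toLeft X.toRight
      (by rw [card_toLeft_add_card_toRight, hc, hG]) (by
        intro u v h
        have h1 := hX u v h
        have hne := h.ne
        simp only [mem_toLeft, mem_toRight]
        by_cases a : Sum.inl u ∈ X <;> by_cases b : Sum.inl v ∈ X <;>
          by_cases c : Sum.inr (⟨s(u, v), h⟩ : G.edgeSet) ∈ X <;>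
          simp [triple, a, b, c, hne, insert_inter_of_mem, insert_inter_of_notMem,
            singleton_inter_of_mem, singleton_inter_of_notMem, card_insert_of_notMem] at h1 ⊢)
    refine Asymptotics.IsBigO.of_bound C (Filter.Eventually.of_forall fun n => ?_)
    rw [Real.norm_natCast, Real.norm_of_nonneg (by positivity)]
    have : ex3 G n ≤ C * n ^ 2 := by
      refine csSup_le' ?_
      rintro m ⟨H, h1, h2, rfl⟩
      refine hC n H h1 fun ⟨f, f1, g, g1, g2, g3⟩ => h2 ⟨⟨Sum.elim f g, ?_⟩, fun u v h => ?_⟩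
      · exact f1.sumElim g1 fun a b => (g2 b a).symm
      · simpa [triple] using g3 u v h
    exact_mod_cast this
  · refine Asymptotics.IsBigO.of_bound 8 (Filter.eventually_atTop.2 ⟨4, fun n hn => ?_⟩)
    rw [Real.norm_natCast, Real.norm_of_nonneg (by positivity)]
    have h1 : (n - 1).choose 2 ≤ ex3 G n := by
      let o : Fin n := ⟨0, by omega⟩
      refine le_csSup (hbdd n) ⟨(powersetCard 2 (univ.erase o)).image (insert o), ?_, ?_, ?_⟩
      · intro e he
        obtain ⟨s, hs, rfl⟩ := mem_image.1 he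
        obtain ⟨s1, s2⟩ := mem_powersetCard.1 hs
        rw [card_insert_of_notMem fun h => by simpa using s1 h, s2]
      · rintro ⟨F, hF⟩
        have hle : (univ.filter fun x => F x = o).card ≤ 1 :=
          card_le_one.2 fun a ha b hb =>
            F.injective ((mem_filter.1 ha).2.trans (mem_filter.1 hb).2.symm)
        have : sigma G ≤ (univ.filter fun x => F x = o).card := by
          refine Nat.sInf_le ⟨_, fun u v h => ?_, rfl⟩
          obtain ⟨s, -, hs⟩ := mem_image.1 (hF u v h)
          obtain ⟨x, x1, x2⟩ := mem_map.1 (hs ▸ mem_insert_self o s)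
          refine le_antisymm ((card_le_card ?_).trans hle) (card_pos.2 ⟨x, ?_⟩)
          · intro y hy
            simp only [mem_inter] at hy
            exact hy.2
          · simp only [mem_inter]
            exact ⟨x1, mem_filter.2 ⟨mem_univ _, x2⟩⟩
        omega
      · rw [card_image_of_injOn, card_powersetCard, card_erase_of_mem (mem_univ _), card_univ,
          Fintype.card_fin]
        intro s hs t ht hst
        have a : o ∉ s := fun h => by simpa using (mem_powersetCard.1 hs).1 h
        have b : o ∉ t := fun h => by simpa using (mem_powersetCard.1 ht).1 h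
        rw [← erase_insert a, hst, erase_insert b]
    have h2 : (((n - 1).choose 2 : ℕ) : ℝ) ≤ ex3 G n := Nat.cast_le.2 h1
    rw [Nat.cast_choose_two, Nat.cast_sub (by omega)] at h2
    have h3 : (4 : ℝ) ≤ n := by exact_mod_cast hn
    push_cast at h2
    nlinarith

end Pool.Agent.Results.MP_e3cf1a_co.Quadratic
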